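import Pool.Agent.Q181.Todd.PartC

open Set Topology Filter TopologicalSpace

namespace Pool.Agent.Results.MP_5e9a16_gt.ToddGroups

open MP5e9a16

/-- Cech-completeness: `X` is a `G_delta` subset of its Stone-Cech compactification. -/
def CechComplete (X : Type*) [TopologicalSpace X] : Prop :=
  IsGδ (range (stoneCechUnit : X → StoneCech X))

theorem cechComplete_of_isCompletelyMetrizable (X : Type*) [TopologicalSpace X]
    [IsCompletelyMetrizableSpace X] : CechComplete X := by
  letI := upgradeIsCompletelyMetrizable X
  have hemb : IsEmbedding (stoneCechUnit : X → StoneCech X) := isDenseEmbedding_stoneCechUnit.isEmbedding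
  set U : ℕ → Set (StoneCech X) := fun n => ⋃₀ {V | IsOpen V ∧ ∀ x y : X, stoneCechUnit x ∈ V →
    stoneCechUnit y ∈ V → dist x y ≤ 1 / ((n : ℝ) + 1)} with hU
  have hUo : ∀ n, IsOpen (U n) := fun n => isOpen_sUnion fun V hV => hV.1
  have hrange : range (stoneCechUnit : X → StoneCech X) = ⋂ n, U n := by
    apply Subset.antisymm
    · rintro _ ⟨x, rfl⟩
      rw [mem_iInter]
      intro n
      obtain ⟨V, hV, hVe⟩ := hemb.isInducing.isOpen_iff.1
        (Metric.isOpen_ball (x := x) (ε := 1 / (2 * ((n : ℝ) + 1))))
      refine ⟨V, ⟨hV, fun y z hy hz => ?_⟩, ?_⟩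
      · have hy' : y ∈ Metric.ball x (1 / (2 * ((n : ℝ) + 1))) := by rw [← hVe]; exact hy
        have hz' : z ∈ Metric.ball x (1 / (2 * ((n : ℝ) + 1))) := by rw [← hVe]; exact hz
        rw [Metric.mem_ball] at hy' hz'
        have h3 : dist y z ≤ dist y x + dist z x := dist_triangle_right _ _ _
        have h4 : 1 / (2 * ((n : ℝ) + 1)) + 1 / (2 * ((n : ℝ) + 1)) = 1 / ((n : ℝ) + 1) := by
          field_simp; norm_num
        linarith
      · have : x ∈ stoneCechUnit ⁻¹' V := by
          rw [hVe]; exact Metric.mem_ball_self (by positivity)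
        exact this
    · intro p hp
      rw [mem_iInter] at hp
      set F : Filter X := comap stoneCechUnit (𝓝 p) with hF
      have hne : F.NeBot := isDenseEmbedding_stoneCechUnit.isDenseInducing.comap_nhds_neBot p
      have hC : Cauchy F := by
        rw [Metric.cauchy_iff]
        refine ⟨hne, fun ε hε => ?_⟩
        obtain ⟨n, hn⟩ := exists_nat_one_div_lt hε
        obtain ⟨V, ⟨hVo, hVd⟩, hpV⟩ := hp n
        exact ⟨stoneCechUnit ⁻¹' V, preimage_mem_comap (hVo.mem_nhds hpV),
          fun x hx y hy => (hVd x y hx hy).trans_lt hn⟩
      obtain ⟨x, hx⟩ := CompleteSpace.complete hC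
      have h1 : Tendsto (stoneCechUnit : X → StoneCech X) F (𝓝 (stoneCechUnit x)) :=
        (continuous_stoneCechUnit.tendsto x).mono_left hx
      have h2 : Tendsto (stoneCechUnit : X → StoneCech X) F (𝓝 p) := tendsto_comap
      exact ⟨x, tendsto_nhds_unique h1 h2⟩
  rw [CechComplete, hrange]
  exact IsGδ.iInter_of_isOpen hUo

/-- **MP_5e9a16_gt, Q1: yes.** Let `H i` be metrizable topological groups and let `G` be a dense
subset (for instance a dense subgroup) of `∏ i, H i`.  If `G` is Todd pseudocomplete, then every
`H i` is Cech-complete (and completely metrizable).  Neither separability nor the group structure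
of `G` is needed. -/
theorem result {I : Type*} (H : I → Type*) [∀ i, Group (H i)] [∀ i, TopologicalSpace (H i)]
    [∀ i, IsTopologicalGroup (H i)] [∀ i, MetrizableSpace (H i)]
    (G : Set (∀ i, H i)) (hG : Dense G) (hT : ToddPseudocomplete G) :
    ∀ i, CechComplete (H i) ∧ IsCompletelyMetrizableSpace (H i) := by
  intro j
  have key : IsCompletelyMetrizableSpace (H j) := by
    letI u : UniformSpace (H j) := IsTopologicalGroup.rightUniformSpace (H j)
    have hU : uniformity (H j) = comap (fun p : H j × H j => p.2 * p.1⁻¹) (𝓝 1) := rfl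
    have hcg : (uniformity (H j)).IsCountablyGenerated := by
      rw [hU]; infer_instance
    letI m : MetricSpace (H j) := UniformSpace.metricSpace (H j)
    apply completely_metrizable hU
    let q : G → UniformSpace.Completion (H j) := fun g => ((g.1 j : H j) : UniformSpace.Completion (H j))
    have hq : Continuous q :=
      (UniformSpace.Completion.continuous_coe (H j)).comp
        ((continuous_apply j).comp continuous_subtype_val)
    have hde : IsDenseEmbedding ((↑) : H j → UniformSpace.Completion (H j)) :=
      UniformSpace.Completion.isDenseEmbedding_coe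
    have hSD := fun O hO hOne => sd_property H G hG j ((↑) : H j → UniformSpace.Completion (H j))
      hde O hO hOne
    have hdense : DenseRange q := by
      have h1 : DenseRange (fun g : G => (g.1 j : H j)) := by
        have h2 : DenseRange (Subtype.val : G → ∀ i, H i) := hG.denseRange_val
        exact (Function.surjective_eval j).denseRange.comp h2 (continuous_apply j)
      exact (hde.dense).comp h1 (UniformSpace.Completion.continuous_coe (H j))
    have hR := residual_range q hq hdense hSD hT
    refine mem_of_superset hR ?_
    rintro _ ⟨g, rfl⟩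
    exact ⟨g.1 j, rfl⟩
  exact ⟨cechComplete_of_isCompletelyMetrizable (H j), key⟩

end Pool.Agent.Results.MP_5e9a16_gt.ToddGroups
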